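import Pool.Agent.N64.AF.SA1
import Pool.Agent.Y112.KD.Real
import Pool.Agent.Y112.SR.Main

/-!
# A2 (helper327): the numerical ideal is a tensor ideal
-/

set_option autoImplicit false

open CategoryTheory Limits MonoidalCategory Module
open Pool.Agent.Y112.SR Pool.Agent.Y112.KD
open Pool.Agent.Y116.MT (tr)

namespace Pool.Agent.N327.AF

universe v u w t

open Functor.LaxMonoidal Functor.OplaxMonoidal

/-- the `ℚ`-linear structure of a `Λ`-linear category -/
@[reducible] noncomputable def linQ (C : Type u) [Category.{v} C] [Preadditive C] (Λ : Type t) [Field Λ] [CharZero Λ]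
    [Linear Λ C] : Linear ℚ C where
  homModule X Y := Module.compHom (X ⟶ Y) (algebraMap ℚ Λ)
  smul_comp X Y Z r f g := Linear.smul_comp X Y Z (algebraMap ℚ Λ r) f g
  comp_smul X Y Z f r g := Linear.comp_smul X Y Z f (algebraMap ℚ Λ r) g

theorem monLinQ (C : Type u) [Category.{v} C] [Preadditive C] [MonoidalCategory C] [MonoidalPreadditive C]
    (Λ : Type t) [Field Λ] [CharZero Λ] [Linear Λ C] [MonoidalLinear Λ C] :
    @MonoidalLinear ℚ _ C _ _ (linQ C Λ) _ _ := by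
  let _ := linQ C Λ
  refine ⟨?_, ?_⟩
  · intro X Y Z r f
    exact MonoidalLinear.whiskerLeft_smul X (algebraMap ℚ Λ r) f
  · intro r Y Z f X
    exact MonoidalLinear.smul_whiskerRight (algebraMap ℚ Λ r) f X

variable {C : Type u} [Category.{v} C] [Preadditive C] [MonoidalCategory C]
  [MonoidalPreadditive C] [SymmetricCategory C] [RightRigidCategory C]
  {Λ : Type t} [Field Λ] [CharZero Λ] [Linear Λ C] [MonoidalLinear Λ C]
  {K : Type w} [Field K] [Algebra Λ K] {R : SuperRealisation C K}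

include Λ in
/-- the supertrace of a partial trace -/
theorem str_ptr {M N : C} (y : M ⊗ N ⟶ M ⊗ N) :
    LinearMap.trace K (R.H.obj M) (R.H.map (ptr y) ≫ R.par M).hom =
      LinearMap.trace K (R.H.obj (M ⊗ N)) (R.H.map y ≫ R.par (M ⊗ N)).hom := by
  let _ := linQ C Λ
  have := monLinQ C Λ
  have h0 := R.finite M
  have h0' := R.finite N
  have h0'' := R.finite (M ⊗ N)
  rw [map_ptr, trace_pt]
  have e1 : (μ R.H M N ≫ R.H.map y ≫ δ R.H M N) ≫ (R.par M ⊗ₘ R.par N) =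
      μ R.H M N ≫ ((R.H.map y ≫ R.par (M ⊗ N)) ≫ δ R.H M N) := by
    simp only [Category.assoc]
    rw [par_delta]
  rw [e1, ModuleCat.hom_comp]
  have h3 : Module.Finite K ↑(R.H.obj M ⊗ R.H.obj N) :=
    inferInstanceAs (Module.Finite K (TensorProduct K (R.H.obj M) (R.H.obj N)))
  have e2 := LinearMap.trace_comp_comm' (R := K) (μ R.H M N).hom
    ((R.H.map y ≫ R.par (M ⊗ N)) ≫ δ R.H M N).hom
  refine e2.trans ?_
  rw [← ModuleCat.hom_comp, Category.assoc, Functor.Monoidal.δ_μ, Category.comp_id]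

/-- the partial trace of a composite -/
theorem ptr_comp {Y Z Q : C} (f : Y ⟶ Z) (g : Z ⊗ Q ⟶ Y ⊗ Q) :
    ptr ((f ▷ Q) ≫ g) = f ≫ ((ρ_ Z).inv ≫ Z ◁ η_ Q Qᘁ ≫ (α_ Z Q Qᘁ).inv ≫ g ▷ Qᘁ ≫ (α_ Y Q Qᘁ).hom ≫
      Y ◁ ((β_ Q Qᘁ).hom ≫ ε_ Q Qᘁ) ≫ (ρ_ Y).hom) := by
  unfold ptr
  rw [comp_whiskerRight]
  simp only [Category.assoc]
  rw [← associator_inv_naturality_left_assoc, whisker_exchange_assoc, ← rightUnitor_inv_naturality_assoc]

end Pool.Agent.N327.AF

namespace Pool.Agent.N64.AF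

universe v u w t

variable {C : Type u} [Category.{v} C] [Preadditive C] [MonoidalCategory C]
  [MonoidalPreadditive C] [SymmetricCategory C] [RightRigidCategory C]
  {Λ : Type t} [Field Λ] [CharZero Λ] [Linear Λ C] [MonoidalLinear Λ C]
  {K : Type w} [Field K] [Algebra Λ K] {R : SuperRealisation C K}

/-- A5 -/
theorem NumTriv.whiskerRight (hR : IsReal Λ R) {Y Z : C} {f : Y ⟶ Z} (hf : NumTriv f) (Q : C) :
    NumTriv (f ▷ Q) := by
  intro g
  rw [tr_eq_zero_iff hR, ← Pool.Agent.N327.AF.str_ptr (Λ := Λ), Pool.Agent.N327.AF.ptr_comp,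
    ← tr_eq_zero_iff hR]
  exact hf _

/-- A6 -/
theorem NumTriv.whiskerLeft (hR : IsReal Λ R) {Y Z : C} {f : Y ⟶ Z} (hf : NumTriv f) (Q : C) :
    NumTriv (Q ◁ f) := by
  have h : Q ◁ f = (β_ Q Y).hom ≫ (f ▷ Q) ≫ (β_ Z Q).hom := by
    rw [BraidedCategory.braiding_naturality_left, SymmetricCategory.symmetry_assoc]
  rw [h]
  exact (hf.whiskerRight hR Q).comp hR _ _

end Pool.Agent.N64.AF
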